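import Mathlib
import Pool.Agent.Q146.PC.One

/-!
# Integer points of plane curves whose coordinates are generated by few integers

We consider ALL plane curves `F = 0` simultaneously, where `F ∈ ℤ[x, y]` has degree at most `d` in
each variable and coefficients of absolute value at most `X ^ E`, is irreducible over `ℚ`, and the
curve contains no curve of the form `t ↦ (x t ^ α, y t ^ β)` (`NoCoset`; a remark that is not
formalised here: this holds for all absolutely irreducible `F` of genus at least one, because such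
a curve is parametrised by rational functions). And we consider all integer points `(x, y)`
on these curves, whose coordinates are, up to sign, products of powers of the same `N` integers
between `1` and `X` (these integers are not fixed, they may be different for different points).

(1) For every `ε > 0` there are `K` and `δ > 0`, depending on `d`, `N`, `E` and `ε` only, such that
for all `X ≥ 2` all these points satisfy `max |x| |y| ≤ X ^ K` or `max |x| |y| > exp (X ^ δ)`,
with the exception of the points of at most `X ^ ε` classes. Here two pairs (curve, point) are in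
the same class if they arise from each other by a scaling `(x, y) ↦ (u x, v y)` with rational
numbers `u`, `v`.

(2) The form of a bound for the curve: there are at most `X ^ ε` classes of curves under scalings,
such that on ALL other curves `F = 0` all generated integer points of size at most `exp (X ^ δ)`
have size at most `X ^ K`, a power of the size of the coefficients of `F` and of the generators.

(3) On each single curve `F = 0` there are at most `4 X ^ ε` generated integer points whose size is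
more than `X ^ K` and at most `exp (X ^ δ)`.
-/

set_option autoImplicit false

namespace Pool.Agent.Results.MP_821da1_nt.FewGeneratorPoints

open Pool.Agent.Q146.PC Pool.Agent.Y902.GN Polynomial

/-- `x` and `y` are, up to sign, products of powers of the same `N` integers between `1` and
`X`. -/
def Generated (N X : ℕ) (x y : ℤ) : Prop :=
  ∃ (η θ : ℤ) (b : Fin N → ℕ) (e f : Fin N → ℕ), |η| = 1 ∧ |θ| = 1 ∧
    (∀ j, 1 ≤ b j ∧ b j ≤ X) ∧ x = η * ∏ j, (b j : ℤ) ^ e j ∧ y = θ * ∏ j, (b j : ℤ) ^ f j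

/-- The curves: `F` has degree at most `d` in each variable and coefficients of absolute value at
most `X ^ E` (`Bd`), is irreducible over the rationals, and the curve contains no coset of a
one-dimensional subtorus (`NoCoset`). -/
structure Curve (d E X : ℕ) (F : ℤ[X][X]) : Prop where
  bd : Bd d ((X : ℤ) ^ E) F
  irr : Irreducible (toQ F)
  noc : NoCoset (toQ F)

/-- `(x, y)` is a generated integer point of the curve `F = 0` with
`X ^ K < max |x| |y| ≤ exp (X ^ δ)`. -/
structure LargePoint (d N E K : ℕ) (δ : ℝ) (X : ℕ) (F : ℤ[X][X]) (x y : ℤ) : Prop where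
  curve : Curve d E X F
  eqn : F.evalEval x y = 0
  gen : Generated N X x y
  large : (X : ℤ) ^ K < max |x| |y|
  bound : ((max |x| |y| : ℤ) : ℝ) ≤ Real.exp ((X : ℝ) ^ δ)

/-- `F (u x, v y)` is a multiple of `F' (x, y)`, `u, v ≠ 0` rational numbers. -/
def ScaledCurve (F F' : ℤ[X][X]) : Prop :=
  ∃ u v κ : ℚ, u ≠ 0 ∧ v ≠ 0 ∧ κ ≠ 0 ∧ sc u v (toQ F) = C (C κ) * toQ F'

/-- `F (u T, v S)` is a multiple of `F' (T, S)` and `(x, y) = (u x', v y')`. -/
def ScaledPoint (F : ℤ[X][X]) (x y : ℤ) (F' : ℤ[X][X]) (x' y' : ℤ) : Prop :=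
  ∃ u v κ : ℚ, u ≠ 0 ∧ v ≠ 0 ∧ κ ≠ 0 ∧ (x : ℚ) = u * x' ∧ (y : ℚ) = v * y' ∧
    sc u v (toQ F) = C (C κ) * toQ F'

theorem Generated.ne {N X : ℕ} {x w : ℤ} (h : Generated N X x w) : x ≠ 0 ∧ w ≠ 0 := by
  obtain ⟨η, θ, b, e, f, hη, hθ, hb, hx, hy⟩ := h
  have hb0 : ∀ j, (b j : ℤ) ≠ 0 := fun j => by
    have := (hb j).1
    exact_mod_cast (by omega : b j ≠ 0)
  constructor
  · rw [hx]
    refine mul_ne_zero ?_ (Finset.prod_ne_zero_iff.2 fun j _ => pow_ne_zero _ (hb0 j))
    rintro rfl
    rw [abs_zero] at hη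
    exact zero_ne_one hη
  · rw [hy]
    refine mul_ne_zero ?_ (Finset.prod_ne_zero_iff.2 fun j _ => pow_ne_zero _ (hb0 j))
    rintro rfl
    rw [abs_zero] at hθ
    exact zero_ne_one hθ

theorem le_ht_int (x : ℤ) : |x| ≤ ht (x : ℚ) := by
  unfold ht
  rw [Rat.num_intCast]
  exact le_max_left _ _

theorem LargePoint.toLarge {d N E K : ℕ} {δ : ℝ} {X : ℕ} {F : ℤ[X][X]} {x y : ℤ}
    (h : LargePoint d N E K δ X F x y) : Large d N E K δ X F x y where
  bd := h.curve.bd
  irr := h.curve.irr
  noc := h.curve.noc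
  eqn := by
    have h1 := map_mapRingHom_evalEval (Int.castRingHom ℚ) F x y
    rw [h.eqn, map_zero] at h1
    exact h1
  rep := by
    obtain ⟨η, θ, b, e, f, hη, hθ, hb, hx, hy⟩ := h.gen
    refine ⟨![1, x, y], ⟨by simp, by simp, ⟨![1, η, θ], b, ![fun _ => 0, e, f], ?_, hb, ?_⟩, ?_⟩⟩
    · intro i
      fin_cases i
      · simp
      · exact hη
      · exact hθ
    · intro i
      fin_cases i
      · simp
      · exact hx
      · exact hy
    · have hb := h.bound
      have h1 : (1 : ℝ) ≤ Real.exp ((X : ℝ) ^ δ) := Real.one_le_exp (by positivity)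
      rw [Int.cast_max] at hb
      intro i
      fin_cases i
      · simpa using h1
      · exact (le_max_left _ _).trans hb
      · exact (le_max_right _ _).trans hb
  large := h.large.trans_le (max_le_max (le_ht_int x) (le_ht_int y))

/-- **Large integer points with generated coordinates on plane curves.** -/
theorem result : ∀ (d N E : ℕ) (ε : ℝ), 0 < ε → ∃ (K : ℕ) (δ : ℝ), 0 < δ ∧ ∀ X : ℕ, 2 ≤ X →
      -- (1) pairs (curve, point)
      (∃ S : Finset (ℤ[X][X] × ℤ × ℤ), (S.card : ℝ) ≤ (X : ℝ) ^ ε ∧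
        (∀ s ∈ S, LargePoint d N E K δ X s.1 s.2.1 s.2.2) ∧
        ∀ (F : ℤ[X][X]) (x y : ℤ), LargePoint d N E K δ X F x y →
          ∃ t ∈ S, ScaledPoint F x y t.1 t.2.1 t.2.2) ∧
      -- (2) curves
      (∃ S : Finset ℤ[X][X], (S.card : ℝ) ≤ (X : ℝ) ^ ε ∧
        ∀ F : ℤ[X][X], Curve d E X F → (∀ G ∈ S, ¬ ScaledCurve F G) →
          ∀ x y : ℤ, F.evalEval x y = 0 → Generated N X x y →
            ((max |x| |y| : ℤ) : ℝ) ≤ Real.exp ((X : ℝ) ^ δ) → max |x| |y| ≤ (X : ℤ) ^ K) ∧
      -- (3) one curve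
      (∀ (F : ℤ[X][X]) (T : Finset (ℤ × ℤ)), (∀ t ∈ T, LargePoint d N E K δ X F t.1 t.2) →
        (T.card : ℝ) ≤ 4 * (X : ℝ) ^ ε) := by
  classical
  intro d N E ε hε
  obtain ⟨K, δ, hδ, H⟩ := count d N E ε hε
  refine ⟨K, δ, hδ, fun X hX => ?_⟩
  have h1 : ∃ S : Finset (ℤ[X][X] × ℤ × ℤ), (S.card : ℝ) ≤ (X : ℝ) ^ ε ∧
        (∀ s ∈ S, LargePoint d N E K δ X s.1 s.2.1 s.2.2) ∧
        ∀ (F : ℤ[X][X]) (x y : ℤ), LargePoint d N E K δ X F x y →
          ∃ t ∈ S, ScaledPoint F x y t.1 t.2.1 t.2.2 := by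
    obtain ⟨T, hT1, hT2, hT3⟩ := max_sep
      {s : ℤ[X][X] × ℤ × ℤ | LargePoint d N E K δ X s.1 s.2.1 s.2.2}
      (fun s t => Scl s.1 s.2.1 s.2.2 t.1 t.2.1 t.2.2)
      (fun s => scl_refl _ _ _) (fun s t => scl_symm) ((X : ℝ) ^ ε)
      (fun T h1 h2 => by
        obtain ⟨g, hg⟩ : ∃ g : ℤ[X][X] × ℤ × ℤ → ℤ[X][X] × ℚ × ℚ, g = fun s =>
          (s.1, (s.2.1 : ℚ), (s.2.2 : ℚ)) := ⟨_, rfl⟩
        have hinj : Set.InjOn g (T : Set (ℤ[X][X] × ℤ × ℤ)) := by
          intro s hs t ht hst
          rw [hg] at hst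
          simp only [Prod.mk.injEq, Int.cast_inj] at hst
          obtain ⟨e1, e2, e3⟩ := hst
          exact Prod.ext e1 (Prod.ext e2 e3)
        rw [← Finset.card_image_of_injOn hinj]
        refine H X hX _ ?_ ?_
        · intro t ht
          obtain ⟨s, hs, rfl⟩ := Finset.mem_image.1 ht
          rw [hg]
          exact (h1 s hs : LargePoint _ _ _ _ _ _ _ _ _).toLarge
        · intro t ht t' ht' hne
          obtain ⟨s, hs, rfl⟩ := Finset.mem_image.1 ht
          obtain ⟨s', hs', rfl⟩ := Finset.mem_image.1 ht'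
          intro hcon
          rw [hg] at hcon
          exact h2 s hs s' hs' (fun h => hne (by rw [h])) hcon)
    exact ⟨T, hT2, hT1, fun F x y h => hT3 (F, x, y) h⟩
  refine ⟨h1, ?_, fun F T hT => ?_⟩
  · obtain ⟨S, hS1, hS2, hS3⟩ := h1
    refine ⟨S.image Prod.fst, ?_, fun F hF hFS x y e hg hb => ?_⟩
    · exact (by exact_mod_cast Finset.card_image_le : ((S.image Prod.fst).card : ℝ) ≤ S.card).trans hS1
    · by_contra hcon
      push Not at hcon
      obtain ⟨t, ht, u, v, κ, hu, hv, hκ, -, -, h5⟩ := hS3 F x y ⟨hF, e, hg, hcon, hb⟩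
      exact hFS t.1 (Finset.mem_image_of_mem _ ht) ⟨u, v, κ, hu, hv, hκ, h5⟩
  · obtain ⟨g, hg⟩ : ∃ g : ℤ × ℤ → ℚ × ℚ, g = fun s => ((s.1 : ℚ), (s.2 : ℚ)) := ⟨_, rfl⟩
    have hinj : Set.InjOn g (T : Set (ℤ × ℤ)) := by
      intro s hs t ht hst
      rw [hg] at hst
      simp only [Prod.mk.injEq, Int.cast_inj] at hst
      exact Prod.ext hst.1 hst.2
    rw [← Finset.card_image_of_injOn hinj]
    refine one_curve (H X hX) F _ fun t ht => ?_
    obtain ⟨s, hs, rfl⟩ := Finset.mem_image.1 ht
    rw [hg]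
    exact (hT s hs).toLarge

end Pool.Agent.Results.MP_821da1_nt.FewGeneratorPoints
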