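import Mathlib
import Pool.Agent.Q158.LucB

set_option autoImplicit false

/-!
# Effective bounds for the points of plane curves with few terms in an algebraic base

All plane curves `F = 0`, `F` an integral polynomial, without nonconstant rational parametrisation
over `ℂ` (for absolutely irreducible `F` this means that the genus is at least one).  We bound,
explicitly in terms of the degree and the length of `F`,

1. all the algebraic points `(x, y)` for which, over some number field `K`, the vector `(1, x, y)` is
   up to a factor a combination of `r` powers of one element `t` of `K`; the bound is linear in the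
   height of the coefficients and does not depend on `K`, `t` and the exponents;
2. all the integer points whose coordinates are combinations of `r` terms of one Lucas sequence
   `U(a, b)`, `b = ± 1`, for instance sums of `r` Fibonacci numbers, or sums of `r` values of
   Chebyshev polynomials of the second kind at one integer; the bound does not depend on the
   sequence and on the places of the terms.
-/

namespace Pool.Agent.Results.MP_821da1_nt.LucasSums

open Height NumberField

/-- The curve `F = 0` has no nonconstant point over the field `ℂ(T)`. -/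
def NoRationalCurve (F : MvPolynomial (Fin 2) ℤ) : Prop :=
  ∀ p : Fin 2 → RatFunc ℂ, MvPolynomial.aeval p F = 0 → ∀ i, ∃ c : ℂ, p i = RatFunc.C c

/-- The Lucas sequence `U_0 = 0`, `U_1 = 1`, `U_(n+2) = a U_(n+1) - b U_n`; the Fibonacci numbers
for `a = 1`, `b = -1`. -/
def U (a b : ℤ) : ℕ → ℤ
  | 0 => 0
  | 1 => 1
  | n + 2 => a * U a b (n + 1) - b * U a b n

/-- The absolute logarithmic projective height of a vector over a number field. -/
noncomputable def absHeight (K : Type) [Field K] [NumberField K] {ι : Type} (x : ι → K) : ℝ :=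
  logHeight x / Module.finrank ℚ K

theorem U_eq (a b : ℤ) : ∀ n : ℕ, U a b n = Pool.Agent.TH409.FB.luc a b n
  | 0 => rfl
  | 1 => rfl
  | n + 2 => by
    rw [U, Pool.Agent.TH409.FB.luc, U_eq a b (n + 1), U_eq a b n]

theorem result (F : MvPolynomial (Fin 2) ℤ) (hyp : NoRationalCurve F) (d : ℕ) (hd : 1 ≤ d)
    (hF : F.totalDegree ≤ d) (A : ℝ) (hA : 1 ≤ A)
    (hFA : ∑ α ∈ F.support, |((MvPolynomial.coeff α F : ℤ) : ℝ)| ≤ A) :
    (∀ (K : Type) [Field K] [NumberField K] (r : ℕ) (t : K) (l : Fin r → ℕ)
      (v : Fin r → Fin 3 → K) (x y z : K), MvPolynomial.aeval ![x, y] F = 0 → z ≠ 0 →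
      z = ∑ j, t ^ (l j) * v j 0 → z * x = ∑ j, t ^ (l j) * v j 1 →
      z * y = ∑ j, t ^ (l j) * v j 2 →
      absHeight K ![1, x, y] ≤ (1 + 8 * (4 * d) ^ r) *
        (d * absHeight K (fun q : Fin r × Fin 3 => v q.1 q.2) + Real.log (A * r ^ d))) ∧
    (∀ a b : ℤ, (b = 1 ∨ b = -1) → a ^ 2 ≠ 4 * b → ∀ (r : ℕ) (B : ℝ), 1 ≤ B →
      ∀ c c' : Fin r → ℤ, (∀ j, |(c j : ℝ)| ≤ B) → (∀ j, |(c' j : ℝ)| ≤ B) →
      ∀ (m m' : Fin r → ℕ) (x y : ℤ), MvPolynomial.eval ![x, y] F = 0 →
      x = ∑ j, c j * U a b (m j) → y = ∑ j, c' j * U a b (m' j) →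
      max |(x : ℝ)| |(y : ℝ)| ≤ (A * ((4 * r + 2) * B) ^ d) ^ (1 + 8 * (4 * d) ^ (4 * r + 2))) := by
  constructor
  · intro K _ _ r t l v x y z hxy hz h0 h1 h2
    rcases Nat.eq_zero_or_pos r with rfl | hr
    · exact absurd (by simpa using h0) hz
    have h := Pool.Agent.Q158.Luc.plane_main K F d hd hF A hA hFA hyp hr t l v ![x, y] hxy z hz h0
      (by
        intro i
        fin_cases i
        · exact h1
        · exact h2)
    have h3 := Pool.Agent.TH409.SH.log_bound d A hA hr (1 + 8 * (4 * d) ^ r) v _ h
    have hD : (0 : ℝ) < Module.finrank ℚ K := by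
      exact_mod_cast Module.finrank_pos
    have h4 : (Fin.cons 1 ![x, y] : Fin 3 → K) = ![1, x, y] := by
      funext i
      fin_cases i <;> rfl
    rw [h4] at h3
    unfold absHeight
    rw [div_le_iff₀ hD]
    refine h3.trans (le_of_eq ?_)
    push_cast
    field_simp
  · intro a b hb hab r B hB c c' hc hc' m m' x y hxy hx hy
    refine Pool.Agent.Q158.Luc.luc_plane F d hd hF A hA hFA hyp a b hb hab r B hB c c' hc hc' m m'
      x y hxy ?_ ?_
    · simpa only [U_eq] using hx
    · simpa only [U_eq] using hy

end Pool.Agent.Results.MP_821da1_nt.LucasSums
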