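import Pool.Agent.Q13.UF.Int
import Pool.Agent.Q13.UF.Uni

/-!
MP_821da1_nt, Q1: an upper bound, with constants which do not depend on the curve, for the integer
points of nonsingular plane curves of degree at least four in the orbits of polynomial maps.
-/

set_option autoImplicit false

namespace Pool.Agent.Results.MP_821da1_nt.OrbitPointsOnPlaneCurves

open MvPolynomial Pool.Agent.Q13.UN Pool.Agent.Q13.UF

/-- The projective plane curve `F = 0` is nonsingular: the partial derivatives of the form `F` have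
no common complex zero except `0`. -/
def Nonsingular (F : MvPolynomial (Fin 3) ℤ) : Prop :=
  ∀ z : Fin 3 → ℂ, (∀ k, aeval z (pderiv k F) = 0) → z = 0

/-- The coefficients of `P` are at most `H` in absolute value and the degree of `P` in each variable
is at most `d`. -/
def Bounded {M : ℕ} (d : ℕ) (H : ℤ) (P : MvPolynomial (Fin M) ℤ) : Prop :=
  (∀ j, P.degreeOf j ≤ d) ∧ ∀ e, |P.coeff e| ≤ H

/-- **Integer points in orbits.** For all `D ≥ 4`, `M` and `d` there is a number `C` with the
following property. Let `F` be a form of degree `D` in three variables with integral coefficients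
such that the projective curve `F = 0` is nonsingular, and let `v 0, v 1, …` be an orbit of a
polynomial map `T` from `ℤ ^ M` to itself, given by polynomials of degree at most `d` in each
variable with coefficients at most `H`, where the coordinates of `v 0` are at most `H`. Let
`ψ 0, ψ 1, ψ 2` be polynomials of the same kind, and suppose that `(ψ 0 : ψ 1 : ψ 2)` maps the
points `v 0, …, v C` to points of the curve. Then all points `(ψ 0 : ψ 1 : ψ 2) (v m) = (1 : x : y)`
with integers `x` and `y`, for all `m`, are integer points of the affine curve `F (1, x, y) = 0` and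
satisfy `max(|x|, |y|) ≤ (2 H) ^ C`. -/
theorem result (D M d : ℕ) (hD : 4 ≤ D) :
    ∃ C : ℕ, ∀ (F : MvPolynomial (Fin 3) ℤ), F.IsHomogeneous D → Nonsingular F →
      ∀ (H : ℤ) (T : Fin M → MvPolynomial (Fin M) ℤ) (ψ : Fin 3 → MvPolynomial (Fin M) ℤ)
        (v : ℕ → Fin M → ℤ), (∀ i, Bounded d H (T i)) → (∀ j, Bounded d H (ψ j)) →
        (∀ i, |v 0 i| ≤ H) → (∀ m i, v (m + 1) i = eval (v m) (T i)) →
        (∀ m ≤ C, (∃ j, eval (v m) (ψ j) ≠ 0) ∧ eval (fun j => eval (v m) (ψ j)) F = 0) →
        ∀ (m : ℕ) (x y : ℤ), eval (v m) (ψ 0) ≠ 0 → x * eval (v m) (ψ 0) = eval (v m) (ψ 1) →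
          y * eval (v m) (ψ 0) = eval (v m) (ψ 2) →
          eval ![1, x, y] F = 0 ∧ |x| ≤ (2 * H) ^ C ∧ |y| ≤ (2 * H) ^ C := by
  classical
  obtain ⟨s, m0, p, hp, h1⟩ := plane_all hD M d
  obtain ⟨K, hK⟩ : ∃ K : ℕ, K = ∑ m ∈ Finset.range (m0 + p), ex M d (m + 1) := ⟨_, rfl⟩
  have hKle : ∀ m < m0 + p, ex M d (m + 1) ≤ K := fun m hm => by
    rw [hK]
    exact Finset.single_le_sum (f := fun m => ex M d (m + 1)) (fun _ _ => Nat.zero_le _)
      (Finset.mem_range.2 hm)
  refine ⟨s + m0 + p + K, fun F hF hns H T ψ v hT hψ h0 hv hcur m x y hxy0 hx hy => ?_⟩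
  -- the size
  have hH : 1 ≤ H := by
    obtain ⟨⟨j, hj⟩, -⟩ := hcur 0 (Nat.zero_le _)
    by_contra hlt
    apply hj
    have h2 : ψ j = 0 := by
      ext e
      have h3 := (hψ j).2 e
      have h4 := abs_nonneg ((ψ j).coeff e)
      rw [coeff_zero, ← abs_nonpos_iff]
      omega
    rw [h2, map_zero]
  have h2H : 1 ≤ 2 * H := by omega
  have hsz : ∀ m < m0 + p, ∀ j, |eval (v m) (ψ j)| ≤ (2 * H) ^ (s + m0 + p + K) := by
    intro m hm j
    refine (abs_eval (hψ j).1 (hψ j).2 hH fun i => abs_orb hH (fun i => (hT i).1)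
      (fun i => (hT i).2) h0 hv m i).trans ?_
    refine pow_le_pow_right₀ h2H ?_
    have h2 := hKle m hm
    change d * M + 1 + ex M d m * (d * M) ≤ K at h2
    omega
  -- passage to the complex numbers
  obtain ⟨f, hf⟩ : ∃ f : ℤ →+* ℂ, f = Int.castRingHom ℂ := ⟨_, rfl⟩
  have hfi : Function.Injective f := by
    rw [hf]
    exact Int.cast_injective
  have hal : ∀ (m : ℕ), orb (k := ℂ) (fun i => map f (T i)) (fun i => f (v 0 i)) m =
      fun i => f (v m i) := by
    intro m
    induction m with
    | zero => rfl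
    | succ m ih =>
      funext i
      change aeval (orb (k := ℂ) (fun i => map f (T i)) (fun i => f (v 0 i)) m) (map f (T i)) = _
      rw [ih, hv, MvPolynomial.aeval_eq_eval]
      exact eval_map' f (v m) (T i)
  have hal2 : ∀ (m : ℕ) (j : Fin 3), along (k := ℂ) (N := 2) (fun i => map f (T i))
      (fun j => map f (ψ j)) (fun i => f (v 0 i)) m j = f (eval (v m) (ψ j)) := by
    intro m j
    change aeval (orb (k := ℂ) (fun i => map f (T i)) (fun i => f (v 0 i)) m) (map f (ψ j)) = _
    rw [hal, MvPolynomial.aeval_eq_eval]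
    exact eval_map' f (v m) (ψ j)
  have hper := h1 ℂ (map f F) (fun i => map f (T i)) (fun j => map f (ψ j)) (fun i => f (v 0 i))
    (hF.map f) (nonsing_of fun z hz => hns z fun k => by
      have h2 := hz k
      rw [pderiv_map, eval_map, hf] at h2
      exact h2)
    (fun i j => (degreeOf_map' _ _ _).trans ((hT i).1 j))
    (fun i j => (degreeOf_map' _ _ _).trans ((hψ i).1 j)) (fun m hm => by
      obtain ⟨⟨j, hj⟩, h2⟩ := hcur m (by omega)
      refine ⟨fun h3 => hj (hfi ?_), ?_⟩
      · rw [← hal2, h3, map_zero]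
        rfl
      · have h3 : along (k := ℂ) (N := 2) (fun i => map f (T i)) (fun j => map f (ψ j))
            (fun i => f (v 0 i)) m = fun j => f (eval (v m) (ψ j)) := funext fun j => hal2 m j
        rw [h3]
        have h4 := eval_map' f (fun j => eval (v m) (ψ j)) F
        rw [h2, map_zero] at h4
        exact h4)
  -- an early point of the orbit
  obtain ⟨m', hm', hcr⟩ : ∃ m' < m0 + p, ∀ i j, eval (v m) (ψ i) * eval (v m') (ψ j) =
      eval (v m) (ψ j) * eval (v m') (ψ i) := by
    by_cases hm : m < m0 + p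
    · exact ⟨m, hm, fun i j => by ring⟩
    · refine ⟨m0 + (m - m0) % p, by have := Nat.mod_lt (m - m0) hp; omega, fun i j => hfi ?_⟩
      have h2 : m ≡ m0 + (m - m0) % p [MOD p] := by
        have h3 : m0 + (m - m0) ≡ m0 + (m - m0) % p [MOD p] :=
          Nat.ModEq.add_left _ (Nat.mod_modEq _ _).symm
        rwa [Nat.add_sub_cancel' (by omega)] at h3
      have h3 := hper m (m0 + (m - m0) % p) (by omega) (by omega) h2 i j
      rw [hal2, hal2, hal2, hal2] at h3
      rw [map_mul, map_mul]
      exact h3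
  have hne : eval (v m') (ψ 0) ≠ 0 := by
    intro h2
    obtain ⟨⟨j, hj⟩, -⟩ := hcur m' (by omega)
    have h3 := hcr 0 j
    rw [h2, mul_zero] at h3
    exact (mul_ne_zero hxy0 hj) h3
  have key0 : ∀ (x : ℤ) (j : Fin 3), x * eval (v m) (ψ 0) = eval (v m) (ψ j) →
      x * eval (v m') (ψ 0) = eval (v m') (ψ j) := by
    intro x j hx
    apply mul_left_cancel₀ hxy0
    have h3 := hcr 0 j
    linear_combination eval (v m') (ψ 0) * hx - h3
  have key : ∀ (x : ℤ) (j : Fin 3), x * eval (v m) (ψ 0) = eval (v m) (ψ j) →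
      |x| ≤ (2 * H) ^ (s + m0 + p + K) := by
    intro x j hx
    refine le_trans ?_ (hsz m' hm' j)
    rw [← key0 x j hx, abs_mul]
    exact le_mul_of_one_le_right (abs_nonneg _) (Int.one_le_abs hne)
  refine ⟨?_, key x 1 hx, key y 2 hy⟩
  have h2 := (hcur m' (by omega)).2
  have h3 : (fun j => eval (v m') (ψ j)) = fun j => eval (v m') (ψ 0) * (![1, x, y] j) := by
    funext j
    fin_cases j
    · exact (mul_one _).symm
    · exact (key0 x 1 hx).symm.trans (mul_comm _ _)
    · exact (key0 y 2 hy).symm.trans (mul_comm _ _)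
  rw [h3] at h2
  have h4 := Pool.Agent.Q13.KO.aeval_scale_hom (R := ℤ) hF ![1, x, y] (eval (v m') (ψ 0))
  have h5 : eval (v m') (ψ 0) ^ D * eval ![1, x, y] F = 0 := h4.symm.trans h2
  exact (mul_eq_zero.1 h5).resolve_left (pow_ne_zero _ hne)

end Pool.Agent.Results.MP_821da1_nt.OrbitPointsOnPlaneCurves
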