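import Mathlib
import Pool.Agent.TH551.SU.Uni
import Pool.Agent.TH551.SU.CS
import Pool.Agent.TH551.SU.Sui
import Pool.Agent.TH551.SU.WT
import Pool.Agent.Q158.SumA

set_option autoImplicit false

/-!
# Uniform bounds for the points of plane curves that are short sums of S-units

Let `d`, `r` and a finitely generated group `Γ` of rational numbers (for instance all `S`-units for a
finite set `S` of primes) be given.  There is ONE constant `C` such that for ALL plane curves
`F = 0`, `F` an integral polynomial of degree at most `d`, without nonconstant rational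
parametrisation over `ℂ` (for absolutely irreducible `F`: of genus at least one), the following
holds; `M` bounds the sum of the absolute values of the coefficients of `F`.

1. Let `(x, y)` be a rational point on `F = 0` such that, up to a common factor `z`, the three
   numbers `1`, `x`, `y` are combinations of the same `r` elements of `Γ`, with integral coefficients
   of absolute value at most `M`.  Then the numerators and denominators of `x` and `y` are at most
   `(2 M) ^ C`.
2. In particular all integer points `(x, y)` on `F = 0` whose coordinates are combinations of `r`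
   elements of `Γ` with integral coefficients of absolute value at most `M` satisfy
   `max |x| |y| ≤ (2 M) ^ C`.

So for every degree `d` one function of the coefficients, computable because it is
`F ↦ (2 M) ^ C`, bounds these integer points on all the curves of degree at most `d`.
-/

namespace Pool.Agent.Results.MP_821da1_nt.SUnitSums

open Height

/-- The curve `F = 0` has no nonconstant point over the field `ℂ(T)`. -/
def NoRationalCurve (F : MvPolynomial (Fin 2) ℤ) : Prop :=
  ∀ p : Fin 2 → RatFunc ℂ, MvPolynomial.aeval p F = 0 → ∀ i, ∃ c : ℂ, p i = RatFunc.C c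

theorem pow_bound {C M t : ℝ} (hC : 0 ≤ C) (hM : 1 ≤ M) (ht : 0 < t)
    (h : Real.log t ≤ C * (1 + Real.log M)) : t ≤ (2 * M) ^ (⌈2 * C⌉₊) := by
  have h2 : (1 / 2 : ℝ) ≤ Real.log 2 := by
    have := Real.log_two_gt_d9
    linarith
  have hM0 : (0 : ℝ) < M := by linarith
  have hl : 0 ≤ Real.log M := Real.log_nonneg hM
  have h3 : Real.log t ≤ ⌈2 * C⌉₊ * Real.log (2 * M) := by
    rw [Real.log_mul (by norm_num) hM0.ne']
    have h4 : 2 * C ≤ ⌈2 * C⌉₊ := Nat.le_ceil _
    have h5 : C * (1 + Real.log M) ≤ 2 * C * (Real.log 2 + Real.log M) := by nlinarith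
    have h6 : 2 * C * (Real.log 2 + Real.log M) ≤ ⌈2 * C⌉₊ * (Real.log 2 + Real.log M) :=
      mul_le_mul_of_nonneg_right h4 (by linarith)
    linarith
  rw [← Real.log_pow] at h3
  exact (Real.log_le_log_iff ht (by positivity)).1 h3

theorem perm_height (x y : ℚ) : logHeight (![x, y, 1] : Fin (2 + 1) → ℚ) ≤
    logHeight (Fin.cons 1 ![x, y] : Fin 3 → ℚ) := by
  have h : (![x, y, 1] : Fin (2 + 1) → ℚ) = (Fin.cons 1 ![x, y] : Fin 3 → ℚ) ∘ ![1, 2, 0] := by
    funext i
    fin_cases i <;> rfl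
  rw [h, logHeight_eq_log_mulHeight, logHeight_eq_log_mulHeight]
  exact Real.log_le_log (mulHeight_pos _) (mulHeight_comp_le _ _)

theorem perm_height' (x y : ℚ) : logHeight (![y, x, 1] : Fin (2 + 1) → ℚ) ≤
    logHeight (Fin.cons 1 ![x, y] : Fin 3 → ℚ) := by
  have h : (![y, x, 1] : Fin (2 + 1) → ℚ) = (Fin.cons 1 ![x, y] : Fin 3 → ℚ) ∘ ![2, 1, 0] := by
    funext i
    fin_cases i <;> rfl
  rw [h, logHeight_eq_log_mulHeight, logHeight_eq_log_mulHeight]
  exact Real.log_le_log (mulHeight_pos _) (mulHeight_comp_le _ _)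

theorem result (d r : ℕ) (Γ : Subgroup ℚˣ) (hΓ : Γ.FG) :
    ∃ C : ℕ, ∀ F : MvPolynomial (Fin 2) ℤ, F.totalDegree ≤ d → NoRationalCurve F →
      ∀ M : ℝ, 1 ≤ M → ∑ α ∈ F.support, |((MvPolynomial.coeff α F : ℤ) : ℝ)| ≤ M →
      (∀ (u : Fin r → Γ) (a : Fin r → Fin 3 → ℤ), (∀ j i, |(a j i : ℝ)| ≤ M) →
        ∀ x y z : ℚ, MvPolynomial.aeval ![x, y] F = 0 → z ≠ 0 →
        z = ∑ j, ((u j : ℚˣ) : ℚ) * a j 0 → z * x = ∑ j, ((u j : ℚˣ) : ℚ) * a j 1 →
        z * y = ∑ j, ((u j : ℚˣ) : ℚ) * a j 2 →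
        max (max |(x.num : ℝ)| x.den) (max |(y.num : ℝ)| y.den) ≤ (2 * M) ^ C) ∧
      (∀ (u : Fin r → Γ) (a b : Fin r → ℤ), (∀ j, |(a j : ℝ)| ≤ M) → (∀ j, |(b j : ℝ)| ≤ M) →
        ∀ x y : ℤ, MvPolynomial.eval ![x, y] F = 0 → (x : ℚ) = ∑ j, ((u j : ℚˣ) : ℚ) * a j →
        (y : ℚ) = ∑ j, ((u j : ℚˣ) : ℚ) * b j → max |(x : ℝ)| |(y : ℝ)| ≤ (2 * M) ^ C) := by
  have hU := Pool.Agent.TH551.SU.Uni.uni
    (Pool.Agent.TH551.SU.CS.cs Pool.Agent.TH551.SU.SUI.sui) Pool.Agent.TH551.SU.WT.wt
  obtain ⟨C₁, hC₁, h₁⟩ := Pool.Agent.Q158.Sum.su_plane hU d r Γ hΓ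
  obtain ⟨C₂, hC₂, h₂⟩ := Pool.Agent.Q158.Sum.su_plane hU d (r + 1) Γ hΓ
  refine ⟨⌈2 * C₁⌉₊ + ⌈2 * C₂⌉₊, ?_⟩
  intro F hFd hyp M hM hFM
  have h2M : (1 : ℝ) ≤ 2 * M := by linarith
  have key : ∀ (C : ℝ), 0 ≤ C → ∀ x y : ℚ,
      logHeight (Fin.cons 1 ![x, y] : Fin 3 → ℚ) ≤ C * (1 + Real.log M) →
      max (max |(x.num : ℝ)| x.den) (max |(y.num : ℝ)| y.den) ≤ (2 * M) ^ (⌈2 * C⌉₊) := by
    intro C hC x y h
    have hx := (Pool.Agent.TH551.HE.num_den_le x y).trans ((perm_height x y).trans h)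
    have hy := (Pool.Agent.TH551.HE.num_den_le y x).trans ((perm_height' x y).trans h)
    have px : (0 : ℝ) < max |(x.num : ℝ)| x.den := lt_max_of_lt_right (by exact_mod_cast x.den_pos)
    have py : (0 : ℝ) < max |(y.num : ℝ)| y.den := lt_max_of_lt_right (by exact_mod_cast y.den_pos)
    exact max_le (pow_bound hC hM px hx) (pow_bound hC hM py hy)
  constructor
  · intro u a ha x y z hxy hz h0 h1 h2
    have h := h₁ F hFd hyp M hM hFM u a ha ![x, y] z hz hxy h0 (by
      intro i
      fin_cases i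
      · exact h1
      · exact h2)
    exact (key C₁ hC₁ x y h).trans (pow_le_pow_right₀ h2M (Nat.le_add_right _ _))
  · intro u a b ha hb x y hxy hx hy
    have hxyQ : MvPolynomial.aeval (![(x : ℚ), (y : ℚ)]) F = 0 := by
      have h2 := congrArg (Int.castRingHom ℚ) hxy
      rw [map_zero, MvPolynomial.eval, MvPolynomial.coe_eval₂Hom, MvPolynomial.hom_eval₂] at h2
      rw [MvPolynomial.aeval_def, ← h2]
      congr 1
      funext i
      fin_cases i <;> simp
    have h := h₂ F hFd hyp M hM hFM (Fin.cons 1 u : Fin (r + 1) → Γ)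
      (Fin.cons ![1, 0, 0] (fun j => ![0, a j, b j]) : Fin (r + 1) → Fin 3 → ℤ) (by
        intro j i
        refine Fin.cases ?_ (fun j => ?_) j
        · fin_cases i
          · simpa using hM
          · simpa using zero_le_one.trans hM
          · simpa using zero_le_one.trans hM
        · fin_cases i
          · simpa using zero_le_one.trans hM
          · simpa using ha j
          · simpa using hb j) ![(x : ℚ), (y : ℚ)] 1 one_ne_zero hxyQ (by
        rw [Fin.sum_univ_succ]
        simp) (by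
        intro i
        rw [Fin.sum_univ_succ]
        fin_cases i
        · simp [hx]
        · simp [hy])
    have h3 := key C₂ hC₂ x y h
    have h4 : max |(x : ℝ)| |(y : ℝ)| ≤
        max (max |((x : ℚ).num : ℝ)| ((x : ℚ).den)) (max |((y : ℚ).num : ℝ)| ((y : ℚ).den)) := by
      rw [Rat.num_intCast, Rat.num_intCast]
      exact max_le_max (le_max_left _ _) (le_max_left _ _)
    exact h4.trans (h3.trans (pow_le_pow_right₀ h2M (Nat.le_add_left _ _)))

end Pool.Agent.Results.MP_821da1_nt.SUnitSums
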